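import Mathlib

/-!
# Random sequential upper semicontinuity is not `𝒯_c`-upper semicontinuity

Over every probability measure on `ℕ` charging all points, the `σ`-stable map
`F x = {y : y i ∈ {0, 1 + x i} for all i}` of `L⁰` into itself is random sequentially upper
semicontinuous but not `𝒯_c`-upper semicontinuous.
-/

open MeasureTheory Filter Topology

namespace Pool.Agent.Results.MP_4f3acd_an.RandomUscAtomic

variable {Ω : Type*} [MeasurableSpace Ω] {𝕜 : Type*} [RCLike 𝕜] {μ : Measure Ω}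

/-- `|ξ|` for `ξ ∈ L⁰(𝓕, 𝕜)`. -/
noncomputable def absL0 (ξ : Ω →ₘ[μ] 𝕜) : Ω →ₘ[μ] ℝ :=
  AEEqFun.comp (fun z : 𝕜 => ‖z‖) continuous_norm ξ

/-- The class `I_a ∈ L⁰(𝓕, 𝕜)` of the indicator of the measurable set `a` (junk value `0` when `a`
is not measurable). -/
noncomputable def ind (𝕜 : Type*) [RCLike 𝕜] (μ : Measure Ω) (a : Set Ω) : Ω →ₘ[μ] 𝕜 :=
  open scoped Classical in
  if h : MeasurableSet a then
    AEEqFun.mk (a.indicator fun _ => (1 : 𝕜))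
      ((stronglyMeasurable_const.indicator h).aestronglyMeasurable)
  else 0

/-- An RN module over `𝕜` with base `(Ω, 𝓕, μ)`: a module over the algebra `L⁰(𝓕, 𝕜)` with an
`L⁰`-norm. -/
structure RNModule (𝕜 : Type*) [RCLike 𝕜] (μ : Measure Ω) (E : Type*) [AddCommGroup E] where
  /-- the scalar multiplication -/
  smul : (Ω →ₘ[μ] 𝕜) → E → E
  /-- the `L⁰`-norm -/
  norm : E → (Ω →ₘ[μ] ℝ)
  one_smul : ∀ x, smul 1 x = x
  mul_smul : ∀ ξ η x, smul (ξ * η) x = smul ξ (smul η x)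
  add_smul : ∀ ξ η x, smul (ξ + η) x = smul ξ x + smul η x
  smul_add : ∀ ξ x y, smul ξ (x + y) = smul ξ x + smul ξ y
  norm_nonneg : ∀ x, 0 ≤ norm x
  norm_smul : ∀ ξ x, norm (smul ξ x) = absL0 ξ * norm x
  norm_add_le : ∀ x y, norm (x + y) ≤ norm x + norm y
  eq_zero_of_norm : ∀ x, norm x = 0 → x = 0

section Defs

variable {E : Type*} [AddCommGroup E] (R : RNModule 𝕜 μ E)
variable {E₁ : Type*} [AddCommGroup E₁] (R₁ : RNModule 𝕜 μ E₁)
variable {E₂ : Type*} [AddCommGroup E₂] (R₂ : RNModule 𝕜 μ E₂)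

/-- Open sets of `𝒯_{ε,λ}`. -/
def IsOpenEL (U : Set E) : Prop :=
  ∀ x ∈ U, ∃ ε : ℝ, 0 < ε ∧ ∃ l : ℝ, 0 < l ∧ l < 1 ∧
    ∀ y, 1 - l < μ.real {ω | R.norm (y - x) ω < ε} → y ∈ U

/-- Convergence `x n → x₀` in `𝒯_{ε,λ}`. -/
def TendstoEL (x : ℕ → E) (x₀ : E) : Prop :=
  ∀ ε : ℝ, 0 < ε → ∀ l : ℝ, 0 < l → l < 1 →
    ∀ᶠ n in atTop, 1 - l < μ.real {ω | R.norm (x n - x₀) ω < ε}

/-- Open sets of `𝒯_c`. -/
def IsOpenC (U : Set E) : Prop :=
  ∀ x ∈ U, ∃ ε : Ω →ₘ[μ] ℝ, (∀ᵐ ω ∂μ, 0 < ε ω) ∧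
    ∀ y, (∀ᵐ ω ∂μ, R.norm (y - x) ω < ε ω) → y ∈ U

/-- Countable measurable partitions of `Ω` (empty members allowed). -/
def IsPartition (a : ℕ → Set Ω) : Prop :=
  (∀ k, MeasurableSet (a k)) ∧ (∀ k l, k ≠ l → Disjoint (a k) (a l)) ∧ ⋃ k, a k = Set.univ

/-- `z = ∑ₖ I_{a k} x k`. -/
def IsConcat (a : ℕ → Set Ω) (x : ℕ → E) (z : E) : Prop :=
  ∀ k, R.smul (ind 𝕜 μ (a k)) z = R.smul (ind 𝕜 μ (a k)) (x k)

/-- `σ`-stable sets. -/
def SigmaStable (X : Set E) : Prop :=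
  X.Nonempty ∧ ∀ a : ℕ → Set Ω, IsPartition a → ∀ x : ℕ → E, (∀ k, x k ∈ X) →
    ∃ z ∈ X, IsConcat R a x z

/-- `σ`-stable set-valued maps `X → 2^Y ∖ {∅}`. -/
def SigmaStableMap (X : Set E₁) (Y : Set E₂) (F : E₁ → Set E₂) : Prop :=
  (∀ x ∈ X, (F x).Nonempty ∧ F x ⊆ Y) ∧
    ∀ a : ℕ → Set Ω, IsPartition a → ∀ x : ℕ → E₁, (∀ k, x k ∈ X) →
      ∀ z ∈ X, IsConcat R₁ a x z →
        F z = {y | y ∈ Y ∧ ∃ y' : ℕ → E₂, (∀ k, y' k ∈ F (x k)) ∧ IsConcat R₂ a y' y}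

/-- `z` is a random subsequence of `x`: `z k = ∑ₗ I_{(n k = l)} x l` with measurable
`n k : Ω → ℕ`, `n k < n (k + 1)` almost surely. -/
def IsRandomSubseq (x z : ℕ → E) : Prop :=
  ∃ n : ℕ → Ω → ℕ, (∀ k, Measurable (n k)) ∧ (∀ k, ∀ᵐ ω ∂μ, n k ω < n (k + 1) ω) ∧
    ∀ k, IsConcat R (fun l => {ω | n k ω = l}) x (z k)

/-- `𝒯_c`-upper semicontinuity of `F` on `X`. -/
def UscC (X : Set E₁) (F : E₁ → Set E₂) : Prop :=
  ∀ x₀ ∈ X, ∀ U : Set E₂, (∃ O, IsOpenC R₂ O ∧ F x₀ ⊆ O ∧ O ⊆ U) →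
    ∃ V : Set E₁, (∃ O, IsOpenC R₁ O ∧ x₀ ∈ O ∧ O ⊆ V) ∧ ∀ x ∈ V ∩ X, F x ⊆ U

/-- Random sequential upper semicontinuity of `F` on `X`. -/
def RandomSeqUsc (X : Set E₁) (F : E₁ → Set E₂) : Prop :=
  ∀ x₀ ∈ X, ∀ x : ℕ → E₁, (∀ n, x n ∈ X) → TendstoEL R₁ x x₀ →
    ∀ V : Set E₂, (∃ O, IsOpenEL R₂ O ∧ F x₀ ⊆ O ∧ O ⊆ V) →
      ∃ z : ℕ → E₁, (∀ k, z k ∈ X) ∧ IsRandomSubseq R₁ x z ∧ ∃ k₀, ∀ k, k₀ ≤ k → F (z k) ⊆ V

end Defs

/-! ### `L⁰` as an RN module over itself -/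

theorem coeFn_absL0 (ξ : Ω →ₘ[μ] 𝕜) : ∀ᵐ ω ∂μ, absL0 ξ ω = ‖ξ ω‖ :=
  AEEqFun.coeFn_comp _ _ _

/-- `L⁰(𝓕, 𝕜)` as an RN module over itself, with `L⁰`-norm `|·|`. -/
noncomputable def selfRN (𝕜 : Type*) [RCLike 𝕜] (μ : Measure Ω) :
    RNModule 𝕜 μ (Ω →ₘ[μ] 𝕜) where
  smul ξ x := ξ * x
  norm x := absL0 x
  one_smul x := one_mul x
  mul_smul ξ η x := mul_assoc ξ η x
  add_smul ξ η x := by
    refine AEEqFun.ext ?_
    filter_upwards [AEEqFun.coeFn_mul (ξ + η) x, AEEqFun.coeFn_add ξ η,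
      AEEqFun.coeFn_add (ξ * x) (η * x), AEEqFun.coeFn_mul ξ x, AEEqFun.coeFn_mul η x]
      with ω h1 h2 h3 h4 h5
    rw [h1, h3, Pi.mul_apply, h2, Pi.add_apply, Pi.add_apply, h4, h5, Pi.mul_apply, Pi.mul_apply,
      add_mul]
  smul_add ξ x y := by
    refine AEEqFun.ext ?_
    filter_upwards [AEEqFun.coeFn_mul ξ (x + y), AEEqFun.coeFn_add x y,
      AEEqFun.coeFn_add (ξ * x) (ξ * y), AEEqFun.coeFn_mul ξ x, AEEqFun.coeFn_mul ξ y]
      with ω h1 h2 h3 h4 h5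
    rw [h1, h3, Pi.mul_apply, h2, Pi.add_apply, Pi.add_apply, h4, h5, Pi.mul_apply, Pi.mul_apply,
      mul_add]
  norm_nonneg x := by
    rw [← AEEqFun.coeFn_le]
    filter_upwards [coeFn_absL0 x, AEEqFun.coeFn_zero (α := Ω) (μ := μ) (β := ℝ)] with ω h1 h2
    rw [h1, h2]
    exact _root_.norm_nonneg _
  norm_smul ξ x := by
    refine AEEqFun.ext ?_
    filter_upwards [coeFn_absL0 (ξ * x), AEEqFun.coeFn_mul (absL0 ξ) (absL0 x), coeFn_absL0 ξ,
      coeFn_absL0 x, AEEqFun.coeFn_mul ξ x] with ω h1 h2 h3 h4 h5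
    rw [h1, h2, Pi.mul_apply, h3, h4, h5, Pi.mul_apply, norm_mul]
  norm_add_le x y := by
    rw [← AEEqFun.coeFn_le]
    filter_upwards [coeFn_absL0 (x + y), AEEqFun.coeFn_add (absL0 x) (absL0 y), coeFn_absL0 x,
      coeFn_absL0 y, AEEqFun.coeFn_add x y] with ω h1 h2 h3 h4 h5
    rw [h1, h2, Pi.add_apply, h3, h4, h5, Pi.add_apply]
    exact _root_.norm_add_le _ _
  eq_zero_of_norm x hx := by
    refine AEEqFun.ext ?_
    have h0 : ∀ᵐ ω ∂μ, absL0 x ω = 0 := by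
      rw [hx]
      exact AEEqFun.coeFn_zero
    filter_upwards [coeFn_absL0 x, h0, AEEqFun.coeFn_zero (α := Ω) (μ := μ) (β := 𝕜)]
      with ω h1 h2 h3
    rw [h3]
    exact norm_eq_zero.1 (h1 ▸ h2)

/-! ### The atomic base -/

section Atomic

variable {𝕜 : Type} [RCLike 𝕜] {μ : Measure ℕ}

theorem ae_all (hμ : ∀ n, μ {n} ≠ 0) {p : ℕ → Prop} (h : ∀ᵐ i ∂μ, p i) : ∀ i, p i := by
  rw [ae_iff_of_countable] at h
  exact fun i => h i (hμ i)

/-- the element of `L⁰` with given values -/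
noncomputable def mkf (μ : Measure ℕ) (f : ℕ → 𝕜) : ℕ →ₘ[μ] 𝕜 :=
  AEEqFun.mk f (Measurable.of_discrete (f := f)).stronglyMeasurable.aestronglyMeasurable

theorem mkf_apply (hμ : ∀ n, μ {n} ≠ 0) (f : ℕ → 𝕜) (i : ℕ) : mkf μ f i = f i :=
  ae_all hμ (AEEqFun.coeFn_mk f _) i

theorem add_at (hμ : ∀ n, μ {n} ≠ 0) (x y : ℕ →ₘ[μ] 𝕜) (i : ℕ) : (x + y) i = x i + y i :=
  ae_all hμ (AEEqFun.coeFn_add x y) i

theorem sub_at (hμ : ∀ n, μ {n} ≠ 0) (x y : ℕ →ₘ[μ] 𝕜) (i : ℕ) : (x - y) i = x i - y i :=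
  ae_all hμ (AEEqFun.coeFn_sub x y) i

theorem mul_at (hμ : ∀ n, μ {n} ≠ 0) (x y : ℕ →ₘ[μ] 𝕜) (i : ℕ) : (x * y) i = x i * y i :=
  ae_all hμ (AEEqFun.coeFn_mul x y) i

theorem abs_at (hμ : ∀ n, μ {n} ≠ 0) (x : ℕ →ₘ[μ] 𝕜) (i : ℕ) : absL0 x i = ‖x i‖ :=
  ae_all hμ (coeFn_absL0 x) i

theorem ind_at (hμ : ∀ n, μ {n} ≠ 0) (a : Set ℕ) (i : ℕ) :
    ind 𝕜 μ a i = a.indicator (fun _ => (1 : 𝕜)) i := by
  have h : MeasurableSet a := MeasurableSet.of_discrete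
  unfold ind
  rw [dif_pos h]
  exact ae_all hμ (AEEqFun.coeFn_mk _ _) i

theorem ext_at {x y : ℕ →ₘ[μ] 𝕜} (h : ∀ i, x i = y i) : x = y :=
  AEEqFun.ext (Eventually.of_forall h)

/-- coordinatewise description of the concatenation -/
theorem isConcat_iff (hμ : ∀ n, μ {n} ≠ 0) (a : ℕ → Set ℕ) (x : ℕ → ℕ →ₘ[μ] 𝕜)
    (z : ℕ →ₘ[μ] 𝕜) :
    IsConcat (selfRN 𝕜 μ) a x z ↔ ∀ k, ∀ i ∈ a k, z i = x k i := by
  constructor
  · intro h k i hi
    have h1 : (ind 𝕜 μ (a k) * z) = ind 𝕜 μ (a k) * x k := h k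
    have h2 := mul_at hμ (ind 𝕜 μ (a k)) z i
    rw [h1, mul_at hμ, ind_at hμ, Set.indicator_of_mem hi, one_mul, one_mul] at h2
    exact h2.symm
  · intro h k
    change ind 𝕜 μ (a k) * z = ind 𝕜 μ (a k) * x k
    refine ext_at fun i => ?_
    rw [mul_at hμ, mul_at hμ, ind_at hμ]
    by_cases hi : i ∈ a k
    · rw [h k i hi]
    · rw [Set.indicator_of_notMem hi, zero_mul, zero_mul]

/-- the map of the counterexample -/
def F (μ : Measure ℕ) (x : ℕ →ₘ[μ] 𝕜) : Set (ℕ →ₘ[μ] 𝕜) :=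
  {y | ∀ i, y i = 0 ∨ y i = 1 + x i}

theorem sigmaStable_univ (hμ : ∀ n, μ {n} ≠ 0) :
    SigmaStable (selfRN 𝕜 μ) (Set.univ : Set (ℕ →ₘ[μ] 𝕜)) := by
  classical
  refine ⟨⟨0, Set.mem_univ _⟩, fun a ha x _ => ?_⟩
  have hex : ∀ i, ∃ k, i ∈ a k := by
    intro i
    have : i ∈ ⋃ k, a k := by rw [ha.2.2]; exact Set.mem_univ i
    simpa using this
  choose κ hκ using hex
  refine ⟨mkf μ fun i => x (κ i) i, Set.mem_univ _, ?_⟩
  rw [isConcat_iff hμ]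
  intro k i hi
  rw [mkf_apply hμ]
  have : κ i = k := by
    by_contra hne
    exact Set.disjoint_left.1 (ha.2.1 _ _ hne) (hκ i) hi
  rw [this]

theorem sigmaStableMap_F (hμ : ∀ n, μ {n} ≠ 0) :
    SigmaStableMap (selfRN 𝕜 μ) (selfRN 𝕜 μ) Set.univ Set.univ (F (𝕜 := 𝕜) μ) := by
  classical
  refine ⟨fun x _ => ⟨⟨mkf μ fun _ => 0, fun i => Or.inl (mkf_apply hμ _ i)⟩,
    Set.subset_univ _⟩, ?_⟩
  intro a ha x _ z _ hz
  rw [isConcat_iff hμ] at hz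
  have hex : ∀ i, ∃ k, i ∈ a k := by
    intro i
    have : i ∈ ⋃ k, a k := by rw [ha.2.2]; exact Set.mem_univ i
    simpa using this
  ext y
  constructor
  · intro hy
    refine ⟨Set.mem_univ _, fun k => mkf μ fun i => if i ∈ a k then y i else 0, ?_, ?_⟩
    · intro k i
      rw [mkf_apply hμ]
      by_cases hi : i ∈ a k
      · rw [if_pos hi, ← hz k i hi]
        exact hy i
      · rw [if_neg hi]
        exact Or.inl rfl
    · rw [isConcat_iff hμ]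
      intro k i hi
      rw [mkf_apply hμ, if_pos hi]
  · rintro ⟨-, y', hy', hc⟩ i
    rw [isConcat_iff hμ] at hc
    obtain ⟨k, hk⟩ := hex i
    rw [hc k i hk, hz k i hk]
    exact hy' k i

/-- a `𝒯_{ε,λ}`-open set is open for the product topology -/
theorem isOpen_of_isOpenEL [IsProbabilityMeasure μ] (hμ : ∀ n, μ {n} ≠ 0)
    {O : Set (ℕ →ₘ[μ] 𝕜)} (hO : IsOpenEL (selfRN 𝕜 μ) O) :
    IsOpen {f : ℕ → 𝕜 | mkf μ f ∈ O} := by
  rw [isOpen_iff_mem_nhds]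
  intro f hf
  obtain ⟨ε, hε, l, hl0, hl1, h⟩ := hO _ hf
  -- finite set of mass > 1 - l
  have hlim : Tendsto (fun m : ℕ => μ.real (Set.Iio m)) atTop (𝓝 1) := by
    have h1 : Tendsto (fun m : ℕ => μ (Set.Iio m)) atTop (𝓝 (μ (⋃ m : ℕ, Set.Iio m))) :=
      tendsto_measure_iUnion_atTop fun a b hab => Set.Iio_subset_Iio hab
    have h2 : (⋃ m : ℕ, Set.Iio m) = Set.univ := by
      ext i
      simp only [Set.mem_iUnion, Set.mem_Iio, Set.mem_univ, iff_true]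
      exact ⟨i + 1, Nat.lt_succ_self i⟩
    rw [h2, measure_univ] at h1
    have h3 := (ENNReal.tendsto_toReal ENNReal.one_ne_top).comp h1
    simpa [Measure.real, Function.comp_def] using h3
  obtain ⟨m, hm⟩ := (hlim.eventually (lt_mem_nhds (show 1 - l < 1 by linarith))).exists
  have hN : {g : ℕ → 𝕜 | ∀ i ∈ Finset.range m, ‖g i - f i‖ < ε} ∈ 𝓝 f := by
    have hopen : IsOpen {g : ℕ → 𝕜 | ∀ i ∈ Finset.range m, ‖g i - f i‖ < ε} := by
      have : {g : ℕ → 𝕜 | ∀ i ∈ Finset.range m, ‖g i - f i‖ < ε}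
          = ⋂ i ∈ Finset.range m, {g : ℕ → 𝕜 | ‖g i - f i‖ < ε} := by
        ext g; simp
      rw [this]
      refine isOpen_biInter_finset fun i _ => ?_
      exact isOpen_lt (by fun_prop) continuous_const
    exact hopen.mem_nhds fun i _ => by simpa using hε
  filter_upwards [hN] with g hg
  refine h _ (hm.trans_le ?_)
  refine measureReal_mono ?_ (measure_ne_top μ _)
  intro i hi
  change absL0 (mkf μ g - mkf μ f) i < ε
  rw [abs_at hμ, sub_at hμ, mkf_apply hμ, mkf_apply hμ]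
  exact hg i (Finset.mem_range.2 hi)

/-- convergence in `𝒯_{ε,λ}` implies coordinatewise convergence -/
theorem tendsto_of_tendstoEL [IsProbabilityMeasure μ] (hμ : ∀ n, μ {n} ≠ 0)
    {x : ℕ → ℕ →ₘ[μ] 𝕜} {x₀ : ℕ →ₘ[μ] 𝕜} (hx : TendstoEL (selfRN 𝕜 μ) x x₀) :
    Tendsto (fun n => fun i => x n i) atTop (𝓝 fun i => x₀ i) := by
  rw [tendsto_pi_nhds]
  intro i
  rw [Metric.tendsto_atTop']
  intro ε hε
  have hi0 : 0 < μ.real {i} := by
    rw [measureReal_def, ENNReal.toReal_pos_iff]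
    exact ⟨pos_iff_ne_zero.2 (hμ i), measure_lt_top _ _⟩
  have hi1 : μ.real {i} ≤ 1 := measureReal_le_one
  have h := hx ε hε (μ.real {i} / 2) (by linarith) (by linarith)
  obtain ⟨N, hN⟩ := eventually_atTop.1 h
  refine ⟨N, fun n hn => ?_⟩
  have h1 := hN n hn.le
  rw [dist_eq_norm]
  by_contra hcon
  have hsub : {ω | (selfRN 𝕜 μ).norm (x n - x₀) ω < ε} ⊆ {i}ᶜ := by
    intro j hj hji
    rw [Set.mem_singleton_iff] at hji
    subst hji
    refine hcon ?_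
    have : absL0 (x n - x₀) j < ε := hj
    rwa [abs_at hμ, sub_at hμ] at this
  have h2 := (h1.trans_le (measureReal_mono hsub (measure_ne_top μ _)))
  rw [probReal_compl_eq_one_sub (measurableSet_singleton i)] at h2
  linarith

theorem randomSeqUsc_F [IsProbabilityMeasure μ] (hμ : ∀ n, μ {n} ≠ 0) :
    RandomSeqUsc (selfRN 𝕜 μ) (selfRN 𝕜 μ) Set.univ (F (𝕜 := 𝕜) μ) := by
  classical
  intro x₀ _ x _ hx V ⟨O, hO, hFO, hOV⟩
  refine ⟨x, fun _ => Set.mem_univ _, ⟨fun k _ => k, fun k => measurable_const,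
    fun k => Eventually.of_forall fun _ => Nat.lt_succ_self k, fun k => ?_⟩, ?_⟩
  · rw [isConcat_iff hμ]
    intro l i hi
    have : k = l := hi
    rw [this]
  · -- compactness
    set O' : Set (ℕ → 𝕜) := {f | mkf μ f ∈ O} with hO'
    have hopen : IsOpen O' := isOpen_of_isOpenEL hμ hO
    set Φ : (ℕ → 𝕜) → (ℕ → Bool) → (ℕ → 𝕜) := fun f s i => if s i then 1 + f i else 0 with hΦ
    have hcont : Continuous fun p : (ℕ → 𝕜) × (ℕ → Bool) => Φ p.1 p.2 := by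
      refine continuous_pi fun i => ?_
      have h1 : Continuous fun p : (ℕ → 𝕜) × (ℕ → Bool) => ((p.1 i, p.2 i) : 𝕜 × Bool) := by
        fun_prop
      have h2 : Continuous fun q : 𝕜 × Bool => if q.2 then 1 + q.1 else 0 := by
        rw [continuous_iff_continuousAt]
        rintro ⟨z, b⟩
        have hb : ∀ᶠ q : 𝕜 × Bool in 𝓝 (z, b), q.2 = b := by
          have : {q : 𝕜 × Bool | q.2 = b} ∈ 𝓝 (z, b) :=
            ((isOpen_discrete {b}).preimage continuous_snd).mem_nhds rfl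
          exact this
        cases b
        · have : ∀ᶠ q : 𝕜 × Bool in 𝓝 (z, false), (0 : 𝕜) = if q.2 then 1 + q.1 else 0 := by
            filter_upwards [hb] with q hq
            simp [hq]
          refine (continuousAt_const.congr this)
        · have : ∀ᶠ q : 𝕜 × Bool in 𝓝 (z, true), (1 + q.1 : 𝕜) = if q.2 then 1 + q.1 else 0 := by
            filter_upwards [hb] with q hq
            simp [hq]
          refine ContinuousAt.congr ?_ this
          fun_prop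
      exact h2.comp h1
    have hev : ∀ᶠ f in 𝓝 (fun i => x₀ i), ∀ s ∈ (Set.univ : Set (ℕ → Bool)), Φ f s ∈ O' := by
      refine isCompact_univ.eventually_forall_of_forall_eventually fun s _ => ?_
      have hmem : Φ (fun i => x₀ i) s ∈ O' := by
        refine hFO ?_
        intro i
        rw [mkf_apply hμ]
        by_cases hs : s i
        · exact Or.inr (by simp [hΦ, hs])
        · exact Or.inl (by simp [hΦ, hs])
      exact (hopen.preimage hcont).mem_nhds hmem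
    obtain ⟨k₀, hk₀⟩ := eventually_atTop.1 ((tendsto_of_tendstoEL hμ hx).eventually hev)
    refine ⟨k₀, fun k hk y hy => hOV ?_⟩
    have h := hk₀ k hk (fun i => decide (y i ≠ 0)) (Set.mem_univ _)
    have hyeq : mkf μ (Φ (fun i => x k i) fun i => decide (y i ≠ 0)) = y := by
      refine ext_at fun i => ?_
      rw [mkf_apply hμ]
      by_cases h0 : y i = 0
      · simp [hΦ, h0]
      · simp only [hΦ, ne_eq, h0, not_false_eq_true, decide_true, if_true]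
        exact ((hy i).resolve_left h0).symm
    rw [hO', Set.mem_ofPred_eq, hyeq] at h
    exact h

/-- `e j = 1_{0} + 1_{j}` -/
noncomputable def e (μ : Measure ℕ) (j : ℕ) : ℕ →ₘ[μ] 𝕜 :=
  mkf μ fun i => if i = 0 ∨ i = j then 1 else 0

theorem e_inj (hμ : ∀ n, μ {n} ≠ 0) {j k : ℕ} (hj : 1 ≤ j)
    (h : (e μ j : ℕ →ₘ[μ] 𝕜) = e μ k) : j = k := by
  have h1 : (e μ j : ℕ →ₘ[μ] 𝕜) j = (e μ k : ℕ →ₘ[μ] 𝕜) j := by rw [h]
  unfold e at h1
  rw [mkf_apply hμ, mkf_apply hμ, if_pos (Or.inr rfl)] at h1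
  by_contra hne
  rw [if_neg] at h1
  · exact one_ne_zero h1
  · rintro (h0 | h0)
    · omega
    · exact hne h0

theorem exists_radii (hμ : ∀ n, μ {n} ≠ 0) : ∃ η : (ℕ →ₘ[μ] 𝕜) → ℝ, (∀ y, 0 < η y) ∧
    (∀ y, η y ≤ 1 / 2) ∧ ∀ j, 1 ≤ j → η (e μ j) ≤ 1 / (2 + j) := by
  classical
  refine ⟨fun y => if h : ∃ j : ℕ, 1 ≤ j ∧ (e μ j : ℕ →ₘ[μ] 𝕜) = y then
    1 / (2 + (h.choose : ℝ)) else 1 / 2, fun y => ?_, fun y => ?_, fun j hj => ?_⟩
  · beta_reduce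
    split_ifs <;> positivity
  · beta_reduce
    split_ifs with h
    · have : (0 : ℝ) ≤ (h.choose : ℝ) := Nat.cast_nonneg _
      exact one_div_le_one_div_of_le (by norm_num) (by linarith)
    · exact le_rfl
  · beta_reduce
    have h : ∃ k : ℕ, 1 ≤ k ∧ (e μ k : ℕ →ₘ[μ] 𝕜) = e μ j := ⟨j, hj, rfl⟩
    rw [dif_pos h]
    have h2 := e_inj hμ h.choose_spec.1 h.choose_spec.2
    rw [h2]

theorem not_uscC_F (hμ : ∀ n, μ {n} ≠ 0) :
    ¬ UscC (selfRN 𝕜 μ) (selfRN 𝕜 μ) Set.univ (F (𝕜 := 𝕜) μ) := by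
  classical
  intro hC
  obtain ⟨η, hη0, hη1, hηe⟩ := exists_radii (𝕜 := 𝕜) hμ
  set U : Set (ℕ →ₘ[μ] 𝕜) := {z | ∃ y ∈ F μ (0 : ℕ →ₘ[μ] 𝕜), ∀ i, ‖z i - y i‖ < η y} with hU
  have hzero : ∀ i, (0 : ℕ →ₘ[μ] 𝕜) i = 0 := fun i =>
    ae_all hμ (AEEqFun.coeFn_zero (α := ℕ) (μ := μ) (β := 𝕜)) i
  have hUopen : IsOpenC (selfRN 𝕜 μ) U := by
    rintro z ⟨y, hy, hz⟩
    refine ⟨mkf μ fun i => η y - ‖z i - y i‖, Eventually.of_forall fun i => ?_, ?_⟩
    · rw [mkf_apply hμ]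
      linarith [hz i]
    · intro w hw
      refine ⟨y, hy, fun i => ?_⟩
      have h1 : absL0 (w - z) i < (mkf μ fun i => η y - ‖z i - y i‖ : ℕ →ₘ[μ] ℝ) i :=
        ae_all hμ hw i
      rw [abs_at hμ, sub_at hμ, mkf_apply hμ] at h1
      have h2 : w i - y i = (w i - z i) + (z i - y i) := by ring
      rw [h2]
      have h3 := norm_add_le (w i - z i) (z i - y i)
      linarith
  obtain ⟨V, ⟨O, hO, h0O, hOV⟩, hV⟩ := hC 0 (Set.mem_univ _) U
    ⟨U, hUopen, fun y hy => ⟨y, hy, fun i => by simpa using hη0 y⟩, subset_rfl⟩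
  obtain ⟨δ, hδ, hδO⟩ := hO 0 h0O
  have hδ0 : ∀ i, 0 < δ i := ae_all hμ hδ
  -- the test point
  set t : ℝ := δ 0 / 2 with ht
  have ht0 : 0 < t := by have := hδ0 0; linarith
  set x : ℕ →ₘ[μ] 𝕜 := mkf μ fun i => if i = 0 then (t : 𝕜) else 0 with hx
  have hxV : x ∈ V := by
    refine hOV (hδO x (Eventually.of_forall fun i => ?_))
    change absL0 (x - 0) i < δ i
    rw [sub_zero, abs_at hμ, hx, mkf_apply hμ]
    by_cases hi : i = 0
    · subst hi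
      rw [if_pos rfl, RCLike.norm_ofReal, abs_of_pos ht0]
      linarith
    · rw [if_neg hi, norm_zero]
      exact hδ0 i
  have hsub := hV x ⟨hxV, Set.mem_univ _⟩
  obtain ⟨j₀, hj₀⟩ := exists_nat_gt (1 / t)
  set j : ℕ := j₀ + 1 with hj
  have hjt : 1 / (2 + (j : ℝ)) ≤ t := by
    rw [div_le_iff₀ (by positivity)]
    have h1 : 1 < j₀ * t := by
      rw [div_lt_iff₀ ht0] at hj₀
      exact hj₀
    have h2 : (j : ℝ) = j₀ + 1 := by rw [hj]; push_cast; ring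
    rw [h2]
    nlinarith
  have hzF : (mkf μ fun i => if i = 0 then 1 + (t : 𝕜) else if i = j then 1 else 0)
      ∈ F μ x := by
    intro i
    rw [mkf_apply hμ, hx, mkf_apply hμ]
    by_cases hi : i = 0
    · rw [if_pos hi, if_pos hi]
      exact Or.inr rfl
    · rw [if_neg hi, if_neg hi]
      by_cases hij : i = j
      · rw [if_pos hij]
        exact Or.inr (by rw [add_zero])
      · rw [if_neg hij]
        exact Or.inl rfl
  obtain ⟨y, hy, hz⟩ := hsub hzF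
  have hy' : ∀ i, y i = 0 ∨ y i = 1 := fun i => by
    have := hy i
    rwa [hzero i, add_zero] at this
  -- y = e j
  have hyi : ∀ i, i ≠ 0 → y i = if i = j then 1 else 0 := by
    intro i hi
    have h1 := hz i
    rw [mkf_apply hμ, if_neg hi] at h1
    have h2 := hη1 y
    by_cases hij : i = j
    · rw [if_pos hij] at h1 ⊢
      rcases hy' i with h3 | h3
      · rw [h3, sub_zero, norm_one] at h1
        linarith
      · exact h3
    · rw [if_neg hij] at h1 ⊢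
      rcases hy' i with h3 | h3
      · exact h3
      · rw [h3, zero_sub, norm_neg, norm_one] at h1
        linarith
  have h00 := hz 0
  rw [mkf_apply hμ, if_pos rfl] at h00
  rcases hy' 0 with h3 | h3
  · rw [h3, sub_zero] at h00
    have h4 : ‖(1 : 𝕜) + (t : 𝕜)‖ = 1 + t := by
      have : (1 : 𝕜) + (t : 𝕜) = ((1 + t : ℝ) : 𝕜) := by push_cast; ring
      rw [this, RCLike.norm_ofReal, abs_of_pos (by linarith)]
    rw [h4] at h00
    have := hη1 y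
    linarith
  · have hye : y = e μ j := by
      refine ext_at fun i => ?_
      unfold e
      rw [mkf_apply hμ]
      by_cases hi : i = 0
      · rw [hi, h3, if_pos (Or.inl rfl)]
      · rw [hyi i hi]
        by_cases hij : i = j
        · rw [if_pos hij, if_pos (Or.inr hij)]
        · rw [if_neg hij, if_neg (by rintro (h | h) <;> contradiction)]
    rw [h3, add_sub_cancel_left, RCLike.norm_ofReal, abs_of_pos ht0, hye] at h00
    have := hηe j (by omega)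
    linarith

end Atomic

/-- There are probability measures on `ℕ` charging every point. -/
theorem exists_base : ∃ μ : Measure ℕ, IsProbabilityMeasure μ ∧ ∀ n, μ {n} ≠ 0 := by
  have h0 : (⟨1 / 2, by norm_num, by norm_num⟩ : unitInterval) ≠ 0 := by
    intro h
    have := congrArg Subtype.val h
    norm_num at this
  have h1 : (⟨1 / 2, by norm_num, by norm_num⟩ : unitInterval) ≠ 1 := by
    intro h
    have := congrArg Subtype.val h
    norm_num at this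
  refine ⟨ProbabilityTheory.geometricMeasure ⟨1 / 2, by norm_num, by norm_num⟩,
    inferInstance, fun n hn => ?_⟩
  have h2 := ProbabilityTheory.geometricMeasure_real_singleton_pos h0 h1 n
  rw [measureReal_def, hn] at h2
  simp at h2

/-- **Main result.** Let `𝕜 = ℝ` or `ℂ` and let `μ` be any probability measure on `ℕ` charging
every point (such measures exist).  There are an RN module `E` over `𝕜` with base `(ℕ, μ)` and a
map `F : E → 2^E ∖ {∅}` such that `E` is a `σ`-stable subset of itself, `F` is `σ`-stable and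
random sequentially upper semicontinuous, but `F` is not `𝒯_c`-upper semicontinuous. -/
theorem result :
    (∃ μ : Measure ℕ, IsProbabilityMeasure μ ∧ ∀ n, μ {n} ≠ 0) ∧
    ∀ (𝕜 : Type) [RCLike 𝕜] (μ : Measure ℕ) [IsProbabilityMeasure μ], (∀ n, μ {n} ≠ 0) →
      ∃ (E : Type) (_ : AddCommGroup E) (R : RNModule 𝕜 μ E) (F : E → Set E),
        SigmaStable R Set.univ ∧ SigmaStableMap R R Set.univ Set.univ F ∧
          RandomSeqUsc R R Set.univ F ∧ ¬ UscC R R Set.univ F :=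
  ⟨exists_base, fun 𝕜 _ μ _ hμ => ⟨ℕ →ₘ[μ] 𝕜, inferInstance, selfRN 𝕜 μ, F μ,
    sigmaStable_univ hμ, sigmaStableMap_F hμ, randomSeqUsc_F hμ, not_uscC_F hμ⟩⟩

end Pool.Agent.Results.MP_4f3acd_an.RandomUscAtomic
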